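import Pool.Agent.Lead.TB.Defs
import Pool.Agent.Helper41.Perm.Defs

/-!
# TB-M: the array of a Latin square given by disjoint permutations
-/

set_option autoImplicit false

namespace Pool.Agent.Lead.TB

open Finset
open Pool.Agent.Helper41.Perm

/-- The array of a family of permutations: `A (r, c, s) = 1` iff `σ s r = c`. -/
def arr {n : ℕ} (σ : Fin n → Equiv.Perm (Fin n)) : (Fin 3 → Fin n) → Bool :=
  fun α => decide (σ (α 2) (α 0) = α 1)

theorem h72_mem_ls {n : ℕ} {σ : Fin n → Equiv.Perm (Fin n)} :
    σ ∈ ls n ↔ ∀ i j, i ≠ j → ∀ r, σ i r ≠ σ j r := by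
  simp [ls, fac]

theorem h72_bij {n : ℕ} {σ : Fin n → Equiv.Perm (Fin n)} (hσ : σ ∈ ls n) (r : Fin n) :
    Function.Bijective fun s => σ s r := by
  rw [← Finite.injective_iff_bijective]
  intro i j hij
  by_contra hne
  exact h72_mem_ls.1 hσ i j hne r hij

theorem arr_isPerm {n : ℕ} {σ : Fin n → Equiv.Perm (Fin n)} (hσ : σ ∈ ls n) :
    IsPerm (d := 2) (arr σ) := by
  intro i α
  have h02 : (0 : Fin 3) ≠ 2 := by decide
  have h12 : (1 : Fin 3) ≠ 2 := by decide
  have h01 : (0 : Fin 3) ≠ 1 := by decide
  change ∃! x : Fin n, decide (σ (Function.update α i x 2) (Function.update α i x 0) =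
    Function.update α i x 1) = true
  simp only [decide_eq_true_eq]
  have hi : i = 0 ∨ i = 1 ∨ i = 2 := by
    revert i
    intro i
    fin_cases i <;> simp
  rcases hi with rfl | rfl | rfl
  · refine ⟨(σ (α 2)).symm (α 1), ?_, ?_⟩
    · simp
    · intro y hy
      simp only [Function.update_of_ne h02.symm, Function.update_self,
        Function.update_of_ne h01.symm] at hy
      rw [← hy, Equiv.symm_apply_apply]
  · refine ⟨σ (α 2) (α 0), ?_, ?_⟩
    · simp
    · intro y hy
      simp only [Function.update_of_ne h12.symm, Function.update_self,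
        Function.update_of_ne h01] at hy
      exact hy.symm
  · obtain ⟨x, hx⟩ := (h72_bij hσ (α 0)).2 (α 1)
    refine ⟨x, ?_, ?_⟩
    · simp only [Function.update_self, Function.update_of_ne h02, Function.update_of_ne h12]
      exact hx
    · intro y hy
      simp only [Function.update_self, Function.update_of_ne h02,
        Function.update_of_ne h12] at hy
      exact (h72_bij hσ (α 0)).1 (hy.trans hx.symm)

theorem h72_arr_apply {n : ℕ} (σ : Fin n → Equiv.Perm (Fin n)) (r c s : Fin n) :
    arr σ ![r, c, s] = decide (σ s r = c) := by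
  simp [arr]

theorem arr_inj {n : ℕ} (σ τ : Fin n → Equiv.Perm (Fin n)) (h : arr σ = arr τ) : σ = τ := by
  funext s
  ext r : 1
  have h1 := congrFun h ![r, σ s r, s]
  rw [h72_arr_apply, h72_arr_apply] at h1
  have h2 : decide (σ s r = σ s r) = true := by simp
  rw [h2] at h1
  have h3 := of_decide_eq_true h1.symm
  exact h3.symm

theorem arr_surj {n : ℕ} (A : (Fin 3 → Fin n) → Bool) (hA : IsPerm (d := 2) A) :
    ∃ σ ∈ ls n, arr σ = A := by
  classical
  have h02 : (0 : Fin 3) ≠ 2 := by decide
  have h12 : (1 : Fin 3) ≠ 2 := by decide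
  have h01 : (0 : Fin 3) ≠ 1 := by decide
  -- the three uniqueness statements in coordinates
  have U0 : ∀ r' c s x : Fin n, Function.update ![r', c, s] 0 x = ![x, c, s] := by
    intro r' c s x
    funext i
    fin_cases i <;> simp
  have U1 : ∀ r c' s x : Fin n, Function.update ![r, c', s] 1 x = ![r, x, s] := by
    intro r c' s x
    funext i
    fin_cases i <;> simp
  have U2 : ∀ r c s' x : Fin n, Function.update ![r, c, s'] 2 x = ![r, c, x] := by
    intro r c s' x
    funext i
    fin_cases i <;> simp
  have H1 : ∀ r s : Fin n, ∃! c : Fin n, A ![r, c, s] = true := by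
    intro r s
    have h := hA 1 ![r, r, s]
    simp only [U1] at h
    exact h
  have H0 : ∀ c s : Fin n, ∃! r : Fin n, A ![r, c, s] = true := by
    intro c s
    have h := hA 0 ![c, c, s]
    simp only [U0] at h
    exact h
  have H2 : ∀ r c : Fin n, ∃! s : Fin n, A ![r, c, s] = true := by
    intro r c
    have h := hA 2 ![r, c, r]
    simp only [U2] at h
    exact h
  let f : Fin n → Fin n → Fin n := fun s r => (H1 r s).choose
  have hf : ∀ s r, A ![r, f s r, s] = true := fun s r => (H1 r s).choose_spec.1
  have hf' : ∀ s r c, A ![r, c, s] = true → c = f s r := fun s r c hc =>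
    (H1 r s).choose_spec.2 c hc
  have finj : ∀ s, Function.Injective (f s) := by
    intro s r r' hrr
    have h1 := hf s r
    have h2 := hf s r'
    rw [← hrr] at h2
    exact (H0 (f s r) s).unique h1 h2
  let σ : Fin n → Equiv.Perm (Fin n) := fun s =>
    Equiv.ofBijective (f s) (Finite.injective_iff_bijective.1 (finj s))
  have hσ : ∀ s r, σ s r = f s r := fun s r => rfl
  refine ⟨σ, ?_, ?_⟩
  · rw [h72_mem_ls]
    intro i j hij r h
    rw [hσ, hσ] at h
    have h1 := hf i r
    have h2 := hf j r
    rw [← h] at h2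
    exact hij ((H2 r (f i r)).unique h1 h2)
  · funext α
    have hα : α = ![α 0, α 1, α 2] := by
      funext i
      fin_cases i <;> simp
    rw [hα, h72_arr_apply, hσ]
    by_cases hc : f (α 2) (α 0) = α 1
    · rw [decide_eq_true hc, ← hc]
      exact (hf _ _).symm
    · rw [decide_eq_false hc]
      by_contra hne
      have ht : A ![α 0, α 1, α 2] = true := by
        cases hb : A ![α 0, α 1, α 2]
        · exact absurd hb.symm hne
        · rfl
      exact hc (hf' _ _ _ ht).symm

theorem arr_empty {n : ℕ} {σ : Fin n → Equiv.Perm (Fin n)} (T : Fin 3 → Finset (Fin n)) :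
    BoxEmpty (d := 2) (arr σ) T ↔ cnt σ (T 0) (T 1) (T 2) = 0 := by
  unfold cnt
  rw [Finset.sum_eq_zero_iff]
  constructor
  · intro h s hs
    rw [Finset.card_eq_zero, Finset.filter_eq_empty_iff]
    intro r hr hc
    have h1 := h ![r, σ s r, s] (by
      intro i
      fin_cases i
      · exact hr
      · exact hc
      · exact hs)
    rw [h72_arr_apply] at h1
    simp at h1
  · intro h α hα
    have h1 := h (α 2) (hα 2)
    rw [Finset.card_eq_zero, Finset.filter_eq_empty_iff] at h1
    have h2 := h1 (hα 0)
    unfold arr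
    rw [decide_eq_false_iff_not]
    intro h3
    apply h2
    rw [h3]
    exact hα 1

end Pool.Agent.Lead.TB
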